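import Mathlib

/-!
# The nilpotence class of a `p`-nilpotent restricted Lie algebra is not determined by `u(L)`

For every prime `p` and every field `F` of characteristic `p` we construct two `9`-dimensional
`p`-nilpotent restricted Lie algebras `L`, `H` over `F` whose restricted enveloping algebras are
isomorphic as associative `F`-algebras, such that `L` is nilpotent of class `2` and `H` is nilpotent
of class `3`.

Construction. For `ε ∈ F` let `L_ε` be the Lie algebra with basis `y, z, x, c, d, a, b, w, v` and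
`[y,x] = c`, `[z,x] = d`, `[y,a] = w`, `[z,b] = w`, `[z,c] = ε v`, `[y,d] = ε v` (all other brackets
of basis elements being zero), and with `p`-map given on the basis by `w^[p] = v` and `0` on the
others. `L_0` has class `2` and `L_ε` has class `3` for `ε ≠ 0`. In `u(L_ε)` the elements
`y, z, x + δ w^(p-2) a b, c + δ w^(p-1) b, d + δ w^(p-1) a, a, b, w, v`
satisfy the relations of `L_(ε+δ)`, because `[z, δ w^(p-1) b] = δ w^p = δ v` and
`[y, δ w^(p-1) a] = δ w^p = δ v`. Hence `u(L_ε) ≅ u(L_(ε+δ))`.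
-/

open Polynomial

namespace Pool.Agent.Results.MP_26769e_al.ClassNotDetermined

/-- One step of the recursion for the coefficients of `(ad (T x + y))^n (x)`: if `c k` is the
coefficient of `T^k` of a polynomial `c` with coefficients in `L`, then `adStep x y c k` is the
coefficient of `T^k` of `[T x + y, c]`. -/
def adStep {L : Type*} [LieRing L] (x y : L) (c : ℕ → L) (k : ℕ) : L :=
  (if k = 0 then 0 else ⁅x, c (k - 1)⁆) + ⁅y, c k⁆

/-- The coefficient of `T^k` in `(ad (T x + y))^n (x)`, computed in `L[T]`: start with the constant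
polynomial `x` and apply `ad (T x + y)` to it `n` times. See `adCoeff_spec` for the comparison with
`F[T] ⊗ L`. -/
def adCoeff {L : Type*} [LieRing L] (x y : L) (n k : ℕ) : L :=
  (adStep x y)^[n] (fun j => if j = 0 then x else 0) k

/-- A **restricted Lie algebra** over a field `F` of characteristic `p`, in the sense of Jacobson: a
Lie algebra `L` over `F` with a map `x ↦ x^[p]` (here `pmap`) such that
* `(a x)^[p] = a^p x^[p]`,
* `ad (x^[p]) = (ad x)^p`,
* `(x + y)^[p] = x^[p] + y^[p] + ∑_(i=1)^(p-1) s_i(x, y)`, where `i s_i(x, y)` is the coefficient of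
  `T^(i-1)` in `(ad (T x + y))^(p-1) (x)`. -/
class RestrictedLieAlgebra (p : ℕ) (F L : Type*) [Field F] [LieRing L] [LieAlgebra F L] where
  /-- the `p`-map -/
  pmap : L → L
  pmap_smul : ∀ (a : F) (x : L), pmap (a • x) = a ^ p • pmap x
  lie_pmap : ∀ x y : L, ⁅pmap x, y⁆ = ((LieAlgebra.ad F L x) ^ p) y
  pmap_add : ∀ x y : L, pmap (x + y) = pmap x + pmap y +
    ∑ i ∈ Finset.Icc 1 (p - 1), ((i : F)⁻¹ • adCoeff x y (p - 1) (i - 1))

/-- The relation `x^p ~ x^[p]` on the universal enveloping algebra `U(L)`, for `x ∈ L`. -/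
inductive EnvRel (p : ℕ) (F L : Type*) [Field F] [LieRing L] [LieAlgebra F L]
    [RestrictedLieAlgebra p F L] :
    UniversalEnvelopingAlgebra F L → UniversalEnvelopingAlgebra F L → Prop
  | pmap_compat (x : L) : EnvRel p F L ((UniversalEnvelopingAlgebra.ι F x) ^ p)
      (UniversalEnvelopingAlgebra.ι F (RestrictedLieAlgebra.pmap p F x))

/-- The **restricted enveloping algebra** `u(L)`: the quotient of the universal enveloping algebra
`U(L)` by the two-sided ideal generated by all `x^p - x^[p]`, `x ∈ L`. -/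
abbrev RestrictedEnvelopingAlgebra (p : ℕ) (F L : Type*) [Field F] [LieRing L] [LieAlgebra F L]
    [RestrictedLieAlgebra p F L] : Type _ := RingQuot (EnvRel p F L)

/-- `L` is `p`-nilpotent: for every `x ∈ L` some iterate (`n ≥ 1`) of the `p`-map vanishes at `x`. -/
def IsPNilpotent (p : ℕ) (F L : Type*) [Field F] [LieRing L] [LieAlgebra F L]
    [RestrictedLieAlgebra p F L] : Prop :=
  ∀ x : L, ∃ n : ℕ, 1 ≤ n ∧ (RestrictedLieAlgebra.pmap p F (L := L))^[n] x = 0

section rec
variable {L : Type*} [LieRing L] (x y : L) (n k : ℕ)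

lemma adCoeff_zz : adCoeff x y 0 0 = x := rfl
lemma adCoeff_zs : adCoeff x y 0 (k + 1) = 0 := rfl
lemma adCoeff_succ : adCoeff x y (n + 1) k = adStep x y (adCoeff x y n) k := by
  unfold adCoeff
  rw [Function.iterate_succ_apply']
lemma adCoeff_sz : adCoeff x y (n + 1) 0 = ⁅y, adCoeff x y n 0⁆ := by
  rw [adCoeff_succ]; simp [adStep]
lemma adCoeff_ss : adCoeff x y (n + 1) (k + 1) = ⁅x, adCoeff x y n k⁆ + ⁅y, adCoeff x y n (k + 1)⁆ := by
  rw [adCoeff_succ]; simp [adStep]

end rec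

/-! ### Comparison of `adCoeff` with the polynomial Lie algebra `F[T] ⊗ L` -/

section spec
open TensorProduct
variable {F : Type*} [Field F] {L : Type*} [LieRing L] [LieAlgebra F L]

lemma adCoeff_eq_zero (x y : L) (n k : ℕ) (h : n < k) : adCoeff x y n k = 0 := by
  induction n generalizing k with
  | zero =>
    obtain ⟨k, rfl⟩ := Nat.exists_eq_succ_of_ne_zero (by omega : k ≠ 0)
    rfl
  | succ n ih =>
    obtain ⟨k, rfl⟩ := Nat.exists_eq_succ_of_ne_zero (by omega : k ≠ 0)
    rw [Nat.succ_eq_add_one, adCoeff_ss, ih k (by omega), ih (k + 1) (by omega), lie_zero, lie_zero,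
      add_zero]

/-- In `F[T] ⊗ L`, `(ad (T x + y))^n (x) = ∑_k T^k ⊗ adCoeff x y n k`. -/
theorem adCoeff_spec (x y : L) (n : ℕ) :
    ((LieAlgebra.ad F[X] (F[X] ⊗[F] L) ((X : F[X]) ⊗ₜ[F] x + (1 : F[X]) ⊗ₜ[F] y)) ^ n)
        ((1 : F[X]) ⊗ₜ[F] x) =
      ∑ k ∈ Finset.range (n + 1), ((X ^ k : F[X]) ⊗ₜ[F] adCoeff x y n k) := by
  induction n with
  | zero => simp [adCoeff_zz]
  | succ n ih =>
    rw [pow_succ', Module.End.mul_apply, ih, LieAlgebra.ad_apply, add_lie, lie_sum, lie_sum]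
    simp only [LieAlgebra.ExtendScalars.bracket_tmul]
    rw [Finset.sum_range_succ' (fun k => (X ^ k : F[X]) ⊗ₜ[F] adCoeff x y (n + 1) k) (n + 1)]
    rw [Finset.sum_range_succ' (fun k => ((1 : F[X]) * X ^ k) ⊗ₜ[F] ⁅y, adCoeff x y n k⁆) n]
    have h1 : ∑ k ∈ Finset.range (n + 1), ((X ^ (k + 1) : F[X]) ⊗ₜ[F] adCoeff x y (n + 1) (k + 1)) =
        ∑ k ∈ Finset.range (n + 1), ((X : F[X]) * X ^ k) ⊗ₜ[F] ⁅x, adCoeff x y n k⁆ +
        ∑ k ∈ Finset.range (n + 1), ((1 : F[X]) * X ^ (k + 1)) ⊗ₜ[F] ⁅y, adCoeff x y n (k + 1)⁆ := by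
      rw [← Finset.sum_add_distrib]
      apply Finset.sum_congr rfl
      intro k _
      rw [adCoeff_ss, TensorProduct.tmul_add, pow_succ', one_mul]
    rw [h1, Finset.sum_range_succ (fun k => ((1 : F[X]) * X ^ (k + 1)) ⊗ₜ[F]
      ⁅y, adCoeff x y n (k + 1)⁆) n, adCoeff_eq_zero x y n (n + 1) (by omega), lie_zero,
      TensorProduct.tmul_zero, add_zero, adCoeff_sz]
    simp [add_assoc]

end spec

/-! ### Jacobson's formula in associative algebras -/

section Assoc

attribute [local instance 100] LieRing.ofAssociativeRing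

variable {R : Type*} [Ring R]

/-- iterated commutator `(ad Q)^n (C x)` in `R[X]`, `Q = x X + y`. -/
noncomputable def W (x y : R) : ℕ → R[X]
  | 0 => C x
  | n + 1 => (C x * X + C y) * W x y n - W x y n * (C x * X + C y)

lemma coeff_W (x y : R) (n k : ℕ) : (W x y n).coeff k = adCoeff x y n k := by
  induction n generalizing k with
  | zero =>
    cases k with
    | zero => simp [W, adCoeff_zz]
    | succ k => simp [W, adCoeff_zs]
  | succ n ih =>
    have e1 : (C x * X + C y) * W x y n = C x * (X * W x y n) + C y * W x y n := by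
      rw [add_mul, mul_assoc]
    have e2 : W x y n * (C x * X + C y) = (W x y n * C x) * X + W x y n * C y := by
      rw [mul_add, mul_assoc]
    cases k with
    | zero =>
      simp only [W, e1, e2, coeff_sub, coeff_add, mul_coeff_zero, coeff_X_zero, zero_mul, mul_zero, zero_add, adCoeff_sz, ih, LieRing.of_associative_ring_bracket,
        coeff_C_zero]
    | succ k =>
      simp only [W, e1, e2, coeff_sub, coeff_add, coeff_C_mul, coeff_mul_C, coeff_X_mul, coeff_mul_X,
        adCoeff_ss, ih, LieRing.of_associative_ring_bracket]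
      abel

lemma choose_pred_prime (p : ℕ) [hp : Fact p.Prime] (S : Type*) [Ring S] [CharP S p] (k : ℕ)
    (hk : k < p) : (((p - 1).choose k : ℕ) : S) = (-1) ^ k := by
  induction k with
  | zero => simp
  | succ k ih =>
    have h1 := ih (by omega)
    have hp1 : p = (p - 1) + 1 := by have := hp.out.pos; omega
    have h2 : p.choose (k + 1) = (p - 1).choose k + (p - 1).choose (k + 1) := by
      conv_lhs => rw [hp1]
      rw [Nat.choose_succ_succ]
    have h3 : ((p.choose (k + 1) : ℕ) : S) = 0 := by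
      rw [CharP.cast_eq_zero_iff S p]
      exact hp.out.dvd_choose_self (by omega) hk
    rw [h2] at h3
    push_cast at h3
    rw [h1] at h3
    rw [pow_succ, mul_neg_one]
    exact eq_neg_of_add_eq_zero_right h3

lemma neg_one_pow_pred (p : ℕ) [hp : Fact p.Prime] (S : Type*) [Ring S] [CharP S p] :
    (-1 : S) ^ (p - 1) = 1 := by
  have := choose_pred_prime p S (p - 1) (by have := hp.out.pos; omega)
  simpa using this.symm

lemma commute_sub_pow_pred (p : ℕ) [hp : Fact p.Prime] {S : Type*} [Ring S] [CharP S p] {l r : S}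
    (h : Commute l r) : (l - r) ^ (p - 1) = ∑ j ∈ Finset.range p, l ^ j * r ^ (p - 1 - j) := by
  have hp1 : p - 1 + 1 = p := by have := hp.out.pos; omega
  rw [sub_eq_add_neg, (h.neg_right).add_pow, hp1]
  apply Finset.sum_congr rfl
  intro j hj
  have hj' : j < p := Finset.mem_range.1 hj
  rw [choose_pred_prime p S j hj', neg_pow, mul_assoc, mul_assoc]
  have h1 : (-1 : S) ^ (p - 1 - j) * (r ^ (p - 1 - j) * (-1) ^ j) = r ^ (p - 1 - j) := by
    have hc : Commute (r ^ (p - 1 - j)) ((-1 : S) ^ j) := by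
      apply Commute.pow_right
      exact (Commute.neg_one_right _)
    rw [hc.eq, ← mul_assoc, ← pow_add]
    have : p - 1 - j + j = p - 1 := by omega
    rw [this, neg_one_pow_pred p S, one_mul]
  rw [h1]

/-- `(ad u)^n a`. -/
def adIter {S : Type*} [Ring S] (u a : S) : ℕ → S
  | 0 => a
  | n + 1 => u * adIter u a n - adIter u a n * u

lemma adIter_pred (p : ℕ) [hp : Fact p.Prime] {S : Type*} [Ring S] [CharP S p] (u a : S) :
    adIter u a (p - 1) = ∑ j ∈ Finset.range p, u ^ j * a * u ^ (p - 1 - j) := by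
  -- work in the ring of additive endomorphisms
  let l : AddMonoid.End S := AddMonoid.End.mulLeft u
  let r : AddMonoid.End S := AddMonoid.End.mulRight u
  have hlr : Commute l r := by
    ext z
    change u * (z * u) = (u * z) * u
    rw [mul_assoc]
  have hiter : ∀ n, adIter u a n = ((l - r) ^ n) a := by
    intro n
    induction n with
    | zero => rfl
    | succ n ih =>
      rw [pow_succ', adIter, ih]
      rfl
  have hl : ∀ (n : ℕ) (z : S), (l ^ n) z = u ^ n * z := by
    intro n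
    induction n with
    | zero => intro z; simp
    | succ n ih =>
      intro z
      rw [pow_succ, pow_succ]
      change (l ^ n) (u * z) = _
      rw [ih, mul_assoc]
  have hr : ∀ (n : ℕ) (z : S), (r ^ n) z = z * u ^ n := by
    intro n
    induction n with
    | zero => intro z; simp
    | succ n ih =>
      intro z
      rw [pow_succ, pow_succ']
      change (r ^ n) (z * u) = _
      rw [ih, mul_assoc]
  have : CharP (AddMonoid.End S) p := by
    constructor
    intro x
    constructor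
    · intro h
      rw [← CharP.cast_eq_zero_iff S p]
      have := DFunLike.congr_fun h (1 : S)
      simpa using this
    · intro h
      ext z
      have h2 := (CharP.cast_eq_zero_iff S p x).2 h
      simp [h2]
  rw [hiter, commute_sub_pow_pred p hlr]
  have hsum : ∀ (f : ℕ → AddMonoid.End S) (s : Finset ℕ), (∑ j ∈ s, f j) a = ∑ j ∈ s, f j a := by
    intro f s
    induction s using Finset.cons_induction with
    | empty => simp
    | cons i s hi ih => rw [Finset.sum_cons, Finset.sum_cons, ← ih]; rfl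
  rw [hsum]
  apply Finset.sum_congr rfl
  intro j _
  change (l ^ j) ((r ^ (p - 1 - j)) a) = _
  rw [hr, hl, mul_assoc]


lemma W_eq_adIter (x y : R) (n : ℕ) : W x y n = adIter (C x * X + C y) (C x) n := by
  induction n with
  | zero => rfl
  | succ n ih => rw [W, adIter, ih]

lemma derivative_pow_noncomm (Q : R[X]) (n : ℕ) :
    derivative (Q ^ n) = ∑ j ∈ Finset.range n, Q ^ j * derivative Q * Q ^ (n - 1 - j) := by
  induction n with
  | zero => simp
  | succ n ih =>
    rw [pow_succ, derivative_mul, ih, Finset.sum_range_succ, Finset.sum_mul]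
    congr 1
    · apply Finset.sum_congr rfl
      intro j hj
      have hj' : j < n := Finset.mem_range.1 hj
      rw [mul_assoc, ← pow_succ]
      congr 2
      omega
    · simp

lemma derivative_Q_pow (p : ℕ) [hp : Fact p.Prime] [CharP R p] (x y : R) :
    derivative ((C x * X + C y) ^ p) = W x y (p - 1) := by
  rw [derivative_pow_noncomm, W_eq_adIter, adIter_pred p]
  have : derivative (C x * X + C y) = C x := by simp
  rw [this]

lemma coeff_Q_pow_succ (p : ℕ) [hp : Fact p.Prime] [CharP R p] (x y : R) (k : ℕ) :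
    ((C x * X + C y) ^ p).coeff (k + 1) * ((k : R) + 1) = adCoeff x y (p - 1) k := by
  rw [← coeff_W, ← derivative_Q_pow p, coeff_derivative]

/-- sum of coefficients. -/
lemma add_pow_eq_sum_coeff (p : ℕ) (x y : R) :
    (x + y) ^ p = ∑ i ∈ Finset.range (p + 1), ((C x * X + C y) ^ p).coeff i := by
  let φ : R[X] →+* R := eval₂RingHom' (RingHom.id R) 1 (fun a => Commute.one_right _)
  have h1 : φ ((C x * X + C y) ^ p) = (x + y) ^ p := by
    rw [map_pow, map_add, map_mul]
    simp [φ]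
  have hdeg : ((C x * X + C y) ^ p).natDegree < p + 1 := by
    have h2 : (C x * X + C y : R[X]).natDegree ≤ 1 := by
      refine (natDegree_add_le _ _).trans ?_
      simp only [natDegree_C, zero_le, sup_of_le_left]
      refine (natDegree_mul_le).trans ?_
      simp only [natDegree_C, zero_add]
      exact natDegree_X_le
    have h3 := natDegree_pow_le_of_le (p := (C x * X + C y : R[X])) p h2
    omega
  rw [← h1]
  change eval₂ (RingHom.id R) 1 _ = _
  rw [eval₂_eq_sum_range' _ hdeg]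
  simp

/-- **Jacobson's formula** in an associative algebra of characteristic `p`. -/
theorem jacobson_formula (p : ℕ) [hp : Fact p.Prime] (F : Type*) [Field F] [CharP F p] [Algebra F R]
    (x y : R) :
    (x + y) ^ p = x ^ p + y ^ p +
      ∑ i ∈ Finset.Icc 1 (p - 1), ((i : F)⁻¹ • adCoeff x y (p - 1) (i - 1)) := by
  rcases subsingleton_or_nontrivial R with hR | hR
  · exact Subsingleton.elim _ _
  have : CharP R p := charP_of_injective_algebraMap (algebraMap F R).injective p
  have hp0 := hp.out.pos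
  rw [add_pow_eq_sum_coeff, Finset.sum_range_succ]
  have hr : Finset.range p = insert 0 (Finset.Icc 1 (p - 1)) := by
    ext i; simp; omega
  rw [hr, Finset.sum_insert (by simp)]
  have h0 : ((C x * X + C y) ^ p).coeff 0 = y ^ p := by
    have := map_pow (constantCoeff (R := R)) (C x * X + C y) p
    rw [constantCoeff_apply, constantCoeff_apply] at this
    rw [this]
    simp
  have hpp : ((C x * X + C y) ^ p).coeff p = x ^ p := by
    have h2 : (C x * X + C y : R[X]).natDegree ≤ 1 := by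
      refine (natDegree_add_le _ _).trans ?_
      simp only [natDegree_C, zero_le, sup_of_le_left]
      refine (natDegree_mul_le).trans ?_
      simp only [natDegree_C, zero_add]
      exact natDegree_X_le
    have := coeff_pow_of_natDegree_le (m := p) h2
    rw [mul_comm, one_mul] at this
    rw [this]
    simp [coeff_C]
  have hs : ∀ i ∈ Finset.Icc 1 (p - 1), ((C x * X + C y) ^ p).coeff i =
      ((i : F)⁻¹ • adCoeff x y (p - 1) (i - 1)) := by
    intro i hi
    rw [Finset.mem_Icc] at hi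
    obtain ⟨k, rfl⟩ : ∃ k, i = k + 1 := ⟨i - 1, by omega⟩
    have h1 := coeff_Q_pow_succ p x y k
    have hk : ((k + 1 : ℕ) : F) ≠ 0 := by
      rw [Ne, CharP.cast_eq_zero_iff F p]
      intro hd
      have := Nat.le_of_dvd (by omega) hd
      omega
    have e : k + 1 - 1 = k := by omega
    rw [e, ← h1]
    have h3 : ((k : R) + 1) = algebraMap F R ((k + 1 : ℕ) : F) := by simp
    rw [h3, ← Algebra.commutes, ← Algebra.smul_def, smul_smul, inv_mul_cancel₀ hk, one_smul]
  rw [Finset.sum_congr rfl hs, h0, hpp]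
  abel

end Assoc
section OfAssoc
attribute [local instance 100] LieRing.ofAssociativeRing

/-- Every associative algebra is a restricted Lie algebra with `x^[p] = x^p` (Jacobson). -/
@[reducible] def restrictedOfAssociative (p : ℕ) [hp : Fact p.Prime] (F : Type*) [Field F] [CharP F p]
    (A : Type*) [Ring A] [Algebra F A] : RestrictedLieAlgebra p F A where
  pmap x := x ^ p
  pmap_smul a x := _root_.smul_pow a x p
  lie_pmap x y := by
    rcases subsingleton_or_nontrivial A with hR | hR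
    · exact Subsingleton.elim _ _
    have : CharP A p := charP_of_injective_algebraMap (algebraMap F A).injective p
    have hE : CharP (Module.End F A) p :=
      charP_of_injective_algebraMap (algebraMap F (Module.End F A)).injective p
    have h1 : LieAlgebra.ad F A x = LinearMap.mulLeft F x - LinearMap.mulRight F x := by
      ext z; simp [LieRing.of_associative_ring_bracket]
    rw [h1, sub_pow_char_of_commute _ (LinearMap.commute_mulLeft_right x x),
      LinearMap.pow_mulLeft, LinearMap.pow_mulRight]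
    simp [LieRing.of_associative_ring_bracket]
  pmap_add x y := jacobson_formula p F x y

end OfAssoc

/-! ### The universal property of `u(L)` -/

section Env
variable (p : ℕ) (F L : Type*) [Field F] [LieRing L] [LieAlgebra F L] [RestrictedLieAlgebra p F L]

attribute [local instance 100] LieRing.ofAssociativeRing

variable {L}

noncomputable def ιR (x : L) : RestrictedEnvelopingAlgebra p F L :=
  RingQuot.mkAlgHom F (EnvRel p F L) (UniversalEnvelopingAlgebra.ι F x)

lemma ιR_add (x y : L) : ιR p F (x + y) = ιR p F x + ιR p F y := by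
  simp only [ιR, map_add]

lemma ιR_smul (a : F) (x : L) : ιR p F (a • x) = a • ιR p F x := by
  simp only [ιR, map_smul]

lemma ιR_lie (x y : L) : ιR p F ⁅x, y⁆ = ιR p F x * ιR p F y - ιR p F y * ιR p F x := by
  have h := (UniversalEnvelopingAlgebra.ι F).map_lie x y
  simp only [ιR]
  rw [h, LieRing.of_associative_ring_bracket, map_sub, map_mul, map_mul]

lemma ιR_pmap (x : L) : ιR p F (RestrictedLieAlgebra.pmap p F x) = (ιR p F x) ^ p := by
  simp only [ιR]
  have := RingQuot.mkAlgHom_rel F (EnvRel.pmap_compat (p := p) (F := F) x)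
  rw [← this, map_pow]

variable {p F}
variable {U : Type*} [Ring U] [Algebra F U]

/-- universal property -/
noncomputable def liftR (f : L →ₗ⁅F⁆ U)
    (hf : ∀ x, f (RestrictedLieAlgebra.pmap p F x) = (f x) ^ p) : RestrictedEnvelopingAlgebra p F L →ₐ[F] U :=
  RingQuot.liftAlgHom F ⟨UniversalEnvelopingAlgebra.lift F f, by
    rintro _ _ ⟨x⟩
    rw [map_pow, UniversalEnvelopingAlgebra.lift_ι_apply, UniversalEnvelopingAlgebra.lift_ι_apply, hf]⟩

lemma liftR_ι (f : L →ₗ⁅F⁆ U)
    (hf : ∀ x, f (RestrictedLieAlgebra.pmap p F x) = (f x) ^ p) (x : L) :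
    liftR f hf (ιR p F x) = f x := by
  unfold liftR ιR
  rw [RingQuot.liftAlgHom_mkAlgHom_apply]
  exact UniversalEnvelopingAlgebra.lift_ι_apply F f x

lemma algHom_ext {g₁ g₂ : RestrictedEnvelopingAlgebra p F L →ₐ[F] U} (h : ∀ x : L, g₁ (ιR p F x) = g₂ (ιR p F x)) :
    g₁ = g₂ := by
  apply RingQuot.ringQuot_ext'
  apply UniversalEnvelopingAlgebra.hom_ext
  ext x
  exact h x

end Env

/-! ### The family `L_ε` -/

section NL
variable {F : Type*} [Field F]

/-- The underlying vector space `F^9`. -/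
def NL (F : Type*) (_ε : F) : Type _ := Fin 9 → F

variable {ε : F}

instance : AddCommGroup (NL F ε) := inferInstanceAs (AddCommGroup (Fin 9 → F))
instance : Module F (NL F ε) := inferInstanceAs (Module F (Fin 9 → F))

/-- The bracket. -/
def br (ε : F) (u v : Fin 9 → F) : Fin 9 → F :=
  ![0, 0, 0, u 0 * v 2 - v 0 * u 2, u 1 * v 2 - v 1 * u 2, 0, 0,
    u 0 * v 5 + u 1 * v 6 - v 0 * u 5 - v 1 * u 6,
    ε * (u 1 * v 3 + u 0 * v 4 - v 1 * u 3 - v 0 * u 4)]

instance : Bracket (NL F ε) (NL F ε) := ⟨br ε⟩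

lemma nl_ext {u v : NL F ε} (h : ∀ i : Fin 9, u i = v i) : u = v := funext h

@[simp] lemma nl_add (u v : NL F ε) (i : Fin 9) : (u + v) i = u i + v i := rfl
@[simp] lemma nl_sub (u v : NL F ε) (i : Fin 9) : (u - v) i = u i - v i := rfl
@[simp] lemma nl_zero (i : Fin 9) : (0 : NL F ε) i = 0 := rfl
@[simp] lemma nl_smul (a : F) (u : NL F ε) (i : Fin 9) : (a • u) i = a * u i := rfl
@[simp] lemma nl_lie0 (u v : NL F ε) : (⁅u, v⁆ : NL F ε) 0 = 0 := rfl
@[simp] lemma nl_lie1 (u v : NL F ε) : (⁅u, v⁆ : NL F ε) 1 = 0 := rfl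
@[simp] lemma nl_lie2 (u v : NL F ε) : (⁅u, v⁆ : NL F ε) 2 = 0 := rfl
@[simp] lemma nl_lie3 (u v : NL F ε) : (⁅u, v⁆ : NL F ε) 3 = u 0 * v 2 - v 0 * u 2 := rfl
@[simp] lemma nl_lie4 (u v : NL F ε) : (⁅u, v⁆ : NL F ε) 4 = u 1 * v 2 - v 1 * u 2 := rfl
@[simp] lemma nl_lie5 (u v : NL F ε) : (⁅u, v⁆ : NL F ε) 5 = 0 := rfl
@[simp] lemma nl_lie6 (u v : NL F ε) : (⁅u, v⁆ : NL F ε) 6 = 0 := rfl
@[simp] lemma nl_lie7 (u v : NL F ε) :
    (⁅u, v⁆ : NL F ε) 7 = u 0 * v 5 + u 1 * v 6 - v 0 * u 5 - v 1 * u 6 := rfl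
@[simp] lemma nl_lie8 (u v : NL F ε) :
    (⁅u, v⁆ : NL F ε) 8 = ε * (u 1 * v 3 + u 0 * v 4 - v 1 * u 3 - v 0 * u 4) := rfl

instance : LieRing (NL F ε) where
  add_lie u v w := by
    apply nl_ext; intro i; fin_cases i <;> simp <;> ring
  lie_add u v w := by
    apply nl_ext; intro i; fin_cases i <;> simp <;> ring
  lie_self u := by
    apply nl_ext; intro i; fin_cases i <;> simp <;> ring
  leibniz_lie u v w := by
    apply nl_ext; intro i; fin_cases i <;> simp <;> ring

instance : LieAlgebra F (NL F ε) where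
  lie_smul a u v := by
    apply nl_ext; intro i; fin_cases i <;> simp <;> ring

/-- projection on the first two coordinates -/
def yz (u : NL F ε) : NL F ε := ![u 0, u 1, 0, 0, 0, 0, 0, 0, 0]

@[simp] lemma yz0 (u : NL F ε) : yz u 0 = u 0 := rfl
@[simp] lemma yz1 (u : NL F ε) : yz u 1 = u 1 := rfl
@[simp] lemma yz2 (u : NL F ε) : yz u 2 = 0 := rfl
@[simp] lemma yz3 (u : NL F ε) : yz u 3 = 0 := rfl
@[simp] lemma yz4 (u : NL F ε) : yz u 4 = 0 := rfl
@[simp] lemma yz5 (u : NL F ε) : yz u 5 = 0 := rfl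
@[simp] lemma yz6 (u : NL F ε) : yz u 6 = 0 := rfl
@[simp] lemma yz7 (u : NL F ε) : yz u 7 = 0 := rfl
@[simp] lemma yz8 (u : NL F ε) : yz u 8 = 0 := rfl

/-- the element of the center. -/
def vv (a : F) : NL F ε := ![0, 0, 0, 0, 0, 0, 0, 0, a]
@[simp] lemma vv0 (a : F) : (vv a : NL F ε) 0 = 0 := rfl
@[simp] lemma vv1 (a : F) : (vv a : NL F ε) 1 = 0 := rfl
@[simp] lemma vv2 (a : F) : (vv a : NL F ε) 2 = 0 := rfl
@[simp] lemma vv3 (a : F) : (vv a : NL F ε) 3 = 0 := rfl
@[simp] lemma vv4 (a : F) : (vv a : NL F ε) 4 = 0 := rfl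
@[simp] lemma vv5 (a : F) : (vv a : NL F ε) 5 = 0 := rfl
@[simp] lemma vv6 (a : F) : (vv a : NL F ε) 6 = 0 := rfl
@[simp] lemma vv7 (a : F) : (vv a : NL F ε) 7 = 0 := rfl
@[simp] lemma vv8 (a : F) : (vv a : NL F ε) 8 = a := rfl

/-- the p-map. -/
noncomputable def nlp (p : ℕ) (u : NL F ε) : NL F ε :=
  vv ((u 7) ^ p) + ((LieAlgebra.ad F (NL F ε) (yz u)) ^ (p - 1)) u

lemma lie4_zero (a b c d : NL F ε) : ⁅a, ⁅b, ⁅c, d⁆⁆⁆ = 0 := by
  apply nl_ext; intro i; fin_cases i <;> simp

lemma ad_pow_three (a : NL F ε) : (LieAlgebra.ad F (NL F ε) a) ^ 3 = 0 := by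
  apply LinearMap.ext; intro v
  simp only [pow_succ, pow_zero, one_mul, Module.End.mul_apply, LieAlgebra.ad_apply, lie4_zero,
    LinearMap.zero_apply]

lemma ad_pow_ge_three (a : NL F ε) {n : ℕ} (hn : 3 ≤ n) : (LieAlgebra.ad F (NL F ε) a) ^ n = 0 := by
  obtain ⟨k, rfl⟩ := Nat.exists_eq_add_of_le hn
  rw [pow_add, ad_pow_three, zero_mul]

lemma adCoeff_three (x y : NL F ε) (n k : ℕ) : adCoeff x y (n + 3) k = 0 := by
  have h1 : ∀ n k, ∃ a b c d : NL F ε, adCoeff x y (n + 1) k = ⁅a, c⁆ + ⁅b, d⁆ := by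
    intro n k
    cases k with
    | zero => exact ⟨y, 0, adCoeff x y n 0, 0, by simp [adCoeff_sz]⟩
    | succ k => exact ⟨x, y, adCoeff x y n k, adCoeff x y n (k+1), by simp [adCoeff_ss]⟩
  have h3 : ∀ (z w : NL F ε) n k, ⁅z, ⁅w, adCoeff x y (n + 1) k⁆⁆ = 0 := by
    intro z w n k
    obtain ⟨a, b, c, d, h⟩ := h1 n k
    rw [h, lie_add, lie_add, lie4_zero, lie4_zero, add_zero]
  have h2 : ∀ (z : NL F ε) n k, ⁅z, adCoeff x y (n + 2) k⁆ = 0 := by
    intro z n k
    cases k with
    | zero => rw [adCoeff_sz, h3]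
    | succ k => rw [adCoeff_ss, lie_add, h3, h3, add_zero]
  cases k with
  | zero => rw [adCoeff_sz, h2]
  | succ k => rw [adCoeff_ss, h2, h2, add_zero]

lemma prime_cases (p : ℕ) (hp : p.Prime) : p = 2 ∨ p = 3 ∨ 4 ≤ p := by
  have := hp.two_le
  omega

lemma lie_lie_eq (a b c : NL F ε) : ⁅a, ⁅b, c⁆⁆ =
    vv (ε * (a 1 * (b 0 * c 2 - c 0 * b 2) + a 0 * (b 1 * c 2 - c 1 * b 2))) := by
  apply nl_ext; intro i; fin_cases i <;> simp
  
lemma nlp_three (u : NL F ε) : nlp 3 u = vv ((u 7) ^ 3 + 2 * ε * u 0 * u 1 * u 2) := by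
  unfold nlp
  rw [pow_two, Module.End.mul_apply, LieAlgebra.ad_apply, LieAlgebra.ad_apply, lie_lie_eq]
  simp only [yz0, yz1, yz2]
  apply nl_ext; intro i; fin_cases i <;> simp
  ring

lemma nlp_ge_four (u : NL F ε) {p : ℕ} (hp : 4 ≤ p) : nlp p u = vv ((u 7) ^ p) := by
  unfold nlp
  rw [ad_pow_ge_three _ (by omega)]
  simp

lemma vv_add (a b : F) : (vv (a + b) : NL F ε) = vv a + vv b := by
  apply nl_ext; intro i; fin_cases i <;> simp

lemma vv_smul (a b : F) : a • (vv b : NL F ε) = vv (a * b) := by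
  apply nl_ext; intro i; fin_cases i <;> simp

lemma vv_lie (a : F) (u : NL F ε) : ⁅(vv a : NL F ε), u⁆ = 0 := by
  apply nl_ext; intro i; fin_cases i <;> simp

noncomputable instance instRestrictedNL (p : ℕ) [hp : Fact p.Prime] [CharP F p] :
    RestrictedLieAlgebra p F (NL F ε) where
  pmap := nlp p
  pmap_smul a u := by
    unfold nlp
    have h1 : yz (a • u) = a • yz u := by
      apply nl_ext; intro i; fin_cases i <;> simp
    have hp1 : p = (p - 1) + 1 := by have := hp.out.pos; omega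
    have h2 : ((LieAlgebra.ad F (NL F ε)) (yz (a • u)) ^ (p - 1)) (a • u) =
        a ^ p • ((LieAlgebra.ad F (NL F ε)) (yz u) ^ (p - 1)) u := by
      rw [h1, map_smul, map_smul, _root_.smul_pow, LinearMap.smul_apply, smul_smul,
        ← pow_succ', ← hp1]
    rw [h2, smul_add, vv_smul, nl_smul, mul_pow]
  lie_pmap u v := by
    rcases prime_cases p hp.out with rfl | rfl | h4
    · have h2 : (2 : F) = 0 := CharP.cast_eq_zero F 2
      unfold nlp
      simp only [pow_two, Module.End.mul_apply, Nat.add_one_sub_one, pow_one, LieAlgebra.ad_apply,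
        lie_lie_eq, add_lie, vv_lie, zero_add]
      apply nl_ext; intro i; fin_cases i <;> simp [-mul_eq_mul_left_iff]
      linear_combination (-ε * (u 0 * u 1 * v 2)) * h2
    · rw [nlp_three, ad_pow_three, vv_lie]; rfl
    · rw [ad_pow_ge_three _ (by omega), nlp_ge_four u h4, vv_lie]; rfl
  pmap_add u v := by
    rcases prime_cases p hp.out with rfl | rfl | h4
    · have h2 : (2 : F) = 0 := CharP.cast_eq_zero F 2
      unfold nlp
      simp only [Nat.add_one_sub_one, pow_one, LieAlgebra.ad_apply, Finset.Icc_self,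
        Finset.sum_singleton, Nat.cast_one, inv_one, one_smul, Nat.sub_self, adCoeff_sz, adCoeff_zz]
      apply nl_ext; intro i; fin_cases i <;> simp
      · linear_combination (u 0 * v 2) * h2
      · linear_combination (u 1 * v 2) * h2
      · linear_combination (u 0 * v 5 + u 1 * v 6) * h2
      · linear_combination (ε * (u 1 * v 3 + u 0 * v 4) + u 7 * v 7) * h2
    · have h3 : (3 : F) = 0 := CharP.cast_eq_zero F 3
      have hi : (2 : F)⁻¹ = -1 := by
        have h2 : (2 : F) = -1 := by linear_combination h3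
        rw [h2]; norm_num
      have hIcc : Finset.Icc 1 2 = {1, 2} := by decide
      rw [nlp_three, nlp_three, nlp_three]
      simp only [Nat.add_one_sub_one, hIcc]
      rw [Finset.sum_pair (by norm_num)]
      simp only [Nat.cast_one, inv_one, one_smul, Nat.sub_self, adCoeff_sz, adCoeff_ss, adCoeff_zz, adCoeff_zs, Nat.cast_ofNat, hi,
        Nat.add_one_sub_one, lie_self, lie_lie_eq, lie_zero, add_zero]
      rw [vv_smul, ← vv_add, ← vv_add, ← vv_add]
      congr 1
      simp only [nl_add]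
      linear_combination (u 7 * v 7 * (u 7 + v 7) + ε * (u 1 * u 2 * v 0 + u 0 * u 2 * v 1 +
        u 0 * v 1 * v 2 + u 1 * v 0 * v 2)) * h3
    · have hsum : ∑ i ∈ Finset.Icc 1 (p - 1), ((i : F)⁻¹ • adCoeff u v (p - 1) (i - 1)) =
          (0 : NL F ε) := by
        apply Finset.sum_eq_zero
        intro i _
        have : p - 1 = (p - 4) + 3 := by omega
        rw [this, adCoeff_three, smul_zero]
      rw [hsum, nlp_ge_four _ h4, nlp_ge_four _ h4, nlp_ge_four _ h4, add_zero, ← vv_add]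
      congr 1
      exact add_pow_char _ _ _

end NL


section Hom

attribute [local instance 100] LieRing.ofAssociativeRing

variable {p : ℕ} [hp : Fact p.Prime] {F : Type*} [Field F] [CharP F p]

section general
variable {L : Type*} [LieRing L] [LieAlgebra F L] [RestrictedLieAlgebra p F L]
variable {U : Type*} [Ring U] [Algebra F U]

lemma map_adCoeff (f : L →ₗ⁅F⁆ U) (x y : L) (n k : ℕ) :
    f (adCoeff x y n k) = adCoeff (f x) (f y) n k := by
  induction n generalizing k with
  | zero => cases k <;> simp [adCoeff_zz, adCoeff_zs]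
  | succ n ih => cases k <;> simp [adCoeff_sz, adCoeff_ss, ih]

lemma pmap_hom_add (f : L →ₗ⁅F⁆ U) {x y : L}
    (hx : f (RestrictedLieAlgebra.pmap p F x) = (f x) ^ p)
    (hy : f (RestrictedLieAlgebra.pmap p F y) = (f y) ^ p) :
    f (RestrictedLieAlgebra.pmap p F (x + y)) = (f (x + y)) ^ p := by
  rw [RestrictedLieAlgebra.pmap_add, map_add, map_add, hx, hy, map_add, jacobson_formula p F, map_sum]
  congr 1
  apply Finset.sum_congr rfl
  intro i _
  rw [map_smul, map_adCoeff]

lemma pmap_hom_smul (f : L →ₗ⁅F⁆ U) (a : F) {x : L}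
    (hx : f (RestrictedLieAlgebra.pmap p F x) = (f x) ^ p) :
    f (RestrictedLieAlgebra.pmap p F (a • x)) = (f (a • x)) ^ p := by
  rw [RestrictedLieAlgebra.pmap_smul, map_smul, map_smul, hx, _root_.smul_pow]

end general

end Hom

section Hom

attribute [local instance 100] LieRing.ofAssociativeRing
variable (p : ℕ) [hp : Fact p.Prime] {F : Type*} [Field F] [CharP F p] (ε : F)

/-- standard basis vectors -/
def e (i : Fin 9) : NL F ε := fun j => if j = i then 1 else 0

@[simp] lemma e_apply (i j : Fin 9) : e ε i j = if j = i then 1 else 0 := rfl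

variable {ε}

/-- tail: kill the first two coordinates. -/
def tail (u : NL F ε) : NL F ε := ![0, 0, u 2, u 3, u 4, u 5, u 6, u 7, u 8]

@[simp] lemma tail0 (u : NL F ε) : tail u 0 = 0 := rfl
@[simp] lemma tail1 (u : NL F ε) : tail u 1 = 0 := rfl
@[simp] lemma tail2 (u : NL F ε) : tail u 2 = u 2 := rfl
@[simp] lemma tail3 (u : NL F ε) : tail u 3 = u 3 := rfl
@[simp] lemma tail4 (u : NL F ε) : tail u 4 = u 4 := rfl
@[simp] lemma tail5 (u : NL F ε) : tail u 5 = u 5 := rfl
@[simp] lemma tail6 (u : NL F ε) : tail u 6 = u 6 := rfl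
@[simp] lemma tail7 (u : NL F ε) : tail u 7 = u 7 := rfl
@[simp] lemma tail8 (u : NL F ε) : tail u 8 = u 8 := rfl

lemma decomp (u : NL F ε) : u = u 0 • e ε 0 + u 1 • e ε 1 + tail u := by
  apply nl_ext; intro i
  fin_cases i <;> simp

/-- generators of the restricted enveloping algebra. -/
noncomputable def gen (ε : F) (i : Fin 9) : RestrictedEnvelopingAlgebra p F (NL F ε) := ιR p F (e ε i)

/-- The commutative subalgebra generated by the tail. -/
noncomputable def TS (ε : F) : Subalgebra F (RestrictedEnvelopingAlgebra p F (NL F ε)) :=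
  Algebra.adjoin F (Set.range fun u : NL F ε => ιR p F (tail u))

lemma ιR_zero' : ιR p F (0 : NL F ε) = 0 := by
  have := ιR_smul p F (0 : F) (0 : NL F ε)
  simpa using this

lemma commute_tail (u v : NL F ε) : Commute (ιR p F (tail u)) (ιR p F (tail v)) := by
  have h : ⁅tail u, tail v⁆ = 0 := by
    apply nl_ext; intro i; fin_cases i <;> simp
  have h2 := ιR_lie p F (tail u) (tail v)
  rw [h, ιR_zero'] at h2
  exact (sub_eq_zero.1 h2.symm)

lemma commute_TS {a b : RestrictedEnvelopingAlgebra p F (NL F ε)} (ha : a ∈ TS p ε) (hb : b ∈ TS p ε) : Commute a b := by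
  have h1 : ∀ u : NL F ε, Commute (ιR p F (tail u)) b := by
    intro u
    apply Algebra.commute_of_mem_adjoin_of_forall_mem_commute hb
    rintro _ ⟨v, rfl⟩
    exact commute_tail p u v
  refine (Algebra.commute_of_mem_adjoin_of_forall_mem_commute ha ?_).symm
  rintro _ ⟨v, rfl⟩
  exact (h1 v).symm

lemma tail_mem_TS (u : NL F ε) : ιR p F (tail u) ∈ TS p ε := Algebra.subset_adjoin ⟨u, rfl⟩

lemma tail_e {i : Fin 9} (hi : 2 ≤ i) : tail (e ε i) = e ε i := by
  apply nl_ext; intro j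
  fin_cases i <;> first | exact absurd hi (by decide) | (fin_cases j <;> simp)

lemma gen_mem_TS {i : Fin 9} (hi : 2 ≤ i) : gen p ε i ∈ TS p ε := by
  have := tail_mem_TS p (e ε i)
  rwa [tail_e hi] at this

/-- commutation relations -/
lemma gen_lie (i j : Fin 9) (u : NL F ε) (h : ⁅e ε i, e ε j⁆ = u) :
    gen p ε i * gen p ε j = gen p ε j * gen p ε i + ιR p F u := by
  unfold gen
  rw [← h, ιR_lie]
  abel

lemma gen05 : gen p ε 0 * gen p ε 5 = gen p ε 5 * gen p ε 0 + gen p ε 7 := by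
  apply gen_lie
  apply nl_ext; intro j; fin_cases j <;> simp
lemma gen06 : Commute (gen p ε 0) (gen p ε 6) := by
  have := gen_lie p 0 6 (0 : NL F ε) (by apply nl_ext; intro j; fin_cases j <;> simp)
  rw [ιR_zero', add_zero] at this
  exact this
lemma gen07 : Commute (gen p ε 0) (gen p ε 7) := by
  have := gen_lie p 0 7 (0 : NL F ε) (by apply nl_ext; intro j; fin_cases j <;> simp)
  rw [ιR_zero', add_zero] at this
  exact this
lemma gen15 : Commute (gen p ε 1) (gen p ε 5) := by
  have := gen_lie p 1 5 (0 : NL F ε) (by apply nl_ext; intro j; fin_cases j <;> simp)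
  rw [ιR_zero', add_zero] at this
  exact this
lemma gen16 : gen p ε 1 * gen p ε 6 = gen p ε 6 * gen p ε 1 + gen p ε 7 := by
  apply gen_lie
  apply nl_ext; intro j; fin_cases j <;> simp
lemma gen17 : Commute (gen p ε 1) (gen p ε 7) := by
  have := gen_lie p 1 7 (0 : NL F ε) (by apply nl_ext; intro j; fin_cases j <;> simp)
  rw [ιR_zero', add_zero] at this
  exact this

lemma p_ge_two : 2 ≤ p := hp.out.two_le

lemma nlp_e0 : nlp p (e ε 0) = 0 := by
  unfold nlp
  have hp2 := p_ge_two p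
  have h1 : p - 1 = (p - 2) + 1 := by omega
  have h2 : ⁅yz (e ε 0), e ε 0⁆ = 0 := by
    apply nl_ext; intro j; fin_cases j <;> simp
  rw [h1, pow_succ, Module.End.mul_apply, LieAlgebra.ad_apply, h2, map_zero, add_zero]
  apply nl_ext; intro j; fin_cases j <;> simp [hp.out.ne_zero]

lemma nlp_e1 : nlp p (e ε 1) = 0 := by
  unfold nlp
  have hp2 := p_ge_two p
  have h1 : p - 1 = (p - 2) + 1 := by omega
  have h2 : ⁅yz (e ε 1), e ε 1⁆ = 0 := by
    apply nl_ext; intro j; fin_cases j <;> simp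
  rw [h1, pow_succ, Module.End.mul_apply, LieAlgebra.ad_apply, h2, map_zero, add_zero]
  apply nl_ext; intro j; fin_cases j <;> simp [hp.out.ne_zero]

lemma nlp_tail (u : NL F ε) : nlp p (tail u) = vv ((u 7) ^ p) := by
  unfold nlp
  have hp2 := p_ge_two p
  have h1 : p - 1 = (p - 2) + 1 := by omega
  have h2 : yz (tail u) = 0 := by
    apply nl_ext; intro j; fin_cases j <;> simp
  rw [h2, map_zero, h1, pow_succ, mul_zero]
  simp

lemma pmap_eq (u : NL F ε) : RestrictedLieAlgebra.pmap p F u = nlp p u := rfl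

lemma vv_zero : (vv 0 : NL F ε) = 0 := by
  apply nl_ext; intro j; fin_cases j <;> simp

lemma gen5_pow : (gen p ε 5) ^ p = 0 := by
  unfold gen
  rw [← ιR_pmap, pmap_eq, ← tail_e (by decide), nlp_tail]
  simp [hp.out.ne_zero, vv_zero, ιR_zero']

lemma gen6_pow : (gen p ε 6) ^ p = 0 := by
  unfold gen
  rw [← ιR_pmap, pmap_eq, ← tail_e (by decide), nlp_tail]
  simp [hp.out.ne_zero, vv_zero, ιR_zero']

lemma vv_one : (vv 1 : NL F ε) = e ε 8 := by
  apply nl_ext; intro j; fin_cases j <;> simp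

lemma gen7_pow : (gen p ε 7) ^ p = gen p ε 8 := by
  unfold gen
  rw [← ιR_pmap, pmap_eq, ← tail_e (by decide : (2 : Fin 9) ≤ 7), nlp_tail]
  simp [vv_one]

/-- The three products. -/
noncomputable def P2 (ε : F) : RestrictedEnvelopingAlgebra p F (NL F ε) := gen p ε 7 ^ (p - 2) * gen p ε 5 * gen p ε 6
noncomputable def P3 (ε : F) : RestrictedEnvelopingAlgebra p F (NL F ε) := gen p ε 7 ^ (p - 1) * gen p ε 6
noncomputable def P4 (ε : F) : RestrictedEnvelopingAlgebra p F (NL F ε) := gen p ε 7 ^ (p - 1) * gen p ε 5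

lemma P2_mem : P2 p ε ∈ TS p ε := by
  unfold P2
  exact mul_mem (mul_mem (pow_mem (gen_mem_TS p (by decide)) _) (gen_mem_TS p (by decide)))
    (gen_mem_TS p (by decide))
lemma P3_mem : P3 p ε ∈ TS p ε := by
  unfold P3
  exact mul_mem (pow_mem (gen_mem_TS p (by decide)) _) (gen_mem_TS p (by decide))
lemma P4_mem : P4 p ε ∈ TS p ε := by
  unfold P4
  exact mul_mem (pow_mem (gen_mem_TS p (by decide)) _) (gen_mem_TS p (by decide))

lemma pow_mul_self_pred : gen p ε 7 ^ (p - 2) * gen p ε 7 = gen p ε 7 ^ (p - 1) := by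
  rw [← pow_succ]
  congr 1
  have := p_ge_two p
  omega

lemma pow_mul_self_pred' : gen p ε 7 ^ (p - 1) * gen p ε 7 = gen p ε 8 := by
  rw [← pow_succ, ← gen7_pow]
  congr 1
  have := p_ge_two p
  omega

lemma lie0_P2 : gen p ε 0 * P2 p ε - P2 p ε * gen p ε 0 = P3 p ε := by
  unfold P2 P3
  have h1 : gen p ε 0 * (gen p ε 7 ^ (p - 2) * gen p ε 5 * gen p ε 6) =
      gen p ε 7 ^ (p - 2) * (gen p ε 0 * gen p ε 5) * gen p ε 6 := by
    rw [← mul_assoc, ← mul_assoc, ((gen07 p).pow_right _).eq, mul_assoc (gen p ε 7 ^ (p - 2))]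
  have h2 : gen p ε 7 ^ (p - 2) * gen p ε 5 * gen p ε 6 * gen p ε 0 =
      gen p ε 7 ^ (p - 2) * (gen p ε 5 * gen p ε 0) * gen p ε 6 := by
    rw [mul_assoc _ (gen p ε 6), ← (gen06 p).eq, ← mul_assoc, mul_assoc _ (gen p ε 5)]
  rw [h1, h2, gen05, mul_add, add_mul, ← pow_mul_self_pred]
  abel

lemma lie0_P3 : gen p ε 0 * P3 p ε - P3 p ε * gen p ε 0 = 0 := by
  unfold P3
  rw [sub_eq_zero]
  exact (((gen07 p).pow_right _).mul_right (gen06 p)).eq

lemma lie0_P4 : gen p ε 0 * P4 p ε - P4 p ε * gen p ε 0 = gen p ε 8 := by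
  unfold P4
  rw [← mul_assoc, ((gen07 p).pow_right _).eq, mul_assoc, gen05, mul_add, ← pow_mul_self_pred',
    mul_assoc]
  abel

lemma lie1_P2 : gen p ε 1 * P2 p ε - P2 p ε * gen p ε 1 = P4 p ε := by
  unfold P2 P4
  have h1 : gen p ε 1 * (gen p ε 7 ^ (p - 2) * gen p ε 5 * gen p ε 6) =
      gen p ε 7 ^ (p - 2) * gen p ε 5 * (gen p ε 1 * gen p ε 6) := by
    rw [← mul_assoc, ← mul_assoc, ((gen17 p).pow_right _).eq, mul_assoc (gen p ε 7 ^ (p - 2)),
      (gen15 p).eq, ← mul_assoc, mul_assoc _ (gen p ε 1)]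
  have h3 : gen p ε 7 ^ (p - 1) * gen p ε 5 = gen p ε 7 ^ (p - 2) * gen p ε 5 * gen p ε 7 := by
    rw [← pow_mul_self_pred, mul_assoc, mul_assoc,
      (commute_TS p (gen_mem_TS p (by decide)) (gen_mem_TS p (by decide)) :
        Commute (gen p ε 7) (gen p ε 5)).eq]
  rw [h1, gen16, mul_add, h3, mul_assoc _ (gen p ε 6)]
  abel

lemma lie1_P3 : gen p ε 1 * P3 p ε - P3 p ε * gen p ε 1 = gen p ε 8 := by
  unfold P3
  rw [← mul_assoc, ((gen17 p).pow_right _).eq, mul_assoc, gen16, mul_add, ← pow_mul_self_pred',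
    mul_assoc]
  abel

lemma lie1_P4 : gen p ε 1 * P4 p ε - P4 p ε * gen p ε 1 = 0 := by
  unfold P4
  rw [sub_eq_zero]
  exact (((gen17 p).pow_right _).mul_right (gen15 p)).eq

/-- the perturbation. -/
noncomputable def Q (ε : F) {ε' : F} (u : NL F ε') : RestrictedEnvelopingAlgebra p F (NL F ε) :=
  u 2 • P2 p ε + u 3 • P3 p ε + u 4 • P4 p ε

lemma Q_add (ε : F) {ε' : F} (u v : NL F ε') : Q p ε (u + v) = Q p ε u + Q p ε v := by
  simp only [Q, nl_add, add_smul]; abel

lemma Q_smul (ε : F) {ε' : F} (a : F) (u : NL F ε') : Q p ε (a • u) = a • Q p ε u := by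
  simp only [Q, nl_smul, mul_smul, smul_add]

lemma Q_mem {ε' : F} (u : NL F ε') : Q p ε u ∈ TS p ε := by
  unfold Q
  exact add_mem (add_mem (Subalgebra.smul_mem _ (P2_mem p) _) (Subalgebra.smul_mem _ (P3_mem p) _))
    (Subalgebra.smul_mem _ (P4_mem p) _)

lemma P2_pow : (P2 p ε) ^ p = 0 := by
  unfold P2
  have h : Commute (gen p ε 7 ^ (p - 2) * gen p ε 5) (gen p ε 6) :=
    commute_TS p (mul_mem (pow_mem (gen_mem_TS p (by decide)) _) (gen_mem_TS p (by decide)))
      (gen_mem_TS p (by decide))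
  rw [h.mul_pow, gen6_pow, mul_zero]

lemma P3_pow : (P3 p ε) ^ p = 0 := by
  unfold P3
  have h : Commute (gen p ε 7 ^ (p - 1)) (gen p ε 6) :=
    commute_TS p (pow_mem (gen_mem_TS p (by decide)) _) (gen_mem_TS p (by decide))
  rw [h.mul_pow, gen6_pow, mul_zero]

lemma P4_pow : (P4 p ε) ^ p = 0 := by
  unfold P4
  have h : Commute (gen p ε 7 ^ (p - 1)) (gen p ε 5) :=
    commute_TS p (pow_mem (gen_mem_TS p (by decide)) _) (gen_mem_TS p (by decide))
  rw [h.mul_pow, gen5_pow, mul_zero]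

lemma add_pow_p {R : Type*} [Ring R] [Algebra F R] {a b : R} (h : Commute a b) :
    (a + b) ^ p = a ^ p + b ^ p := by
  rcases subsingleton_or_nontrivial R with hR | hR
  · exact Subsingleton.elim _ _
  have : CharP R p := charP_of_injective_algebraMap (algebraMap F R).injective p
  exact add_pow_char_of_commute p h

lemma Q_pow {ε' : F} (u : NL F ε') : (Q p ε u) ^ p = 0 := by
  unfold Q
  have m2 := Subalgebra.smul_mem _ (P2_mem (ε := ε) p) (u 2)
  have m3 := Subalgebra.smul_mem _ (P3_mem (ε := ε) p) (u 3)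
  have m4 := Subalgebra.smul_mem _ (P4_mem (ε := ε) p) (u 4)
  rw [add_pow_p p (F := F) (commute_TS p (add_mem m2 m3) m4),
    add_pow_p p (F := F) (commute_TS p m2 m3), _root_.smul_pow, _root_.smul_pow, _root_.smul_pow,
    P2_pow, P3_pow, P4_pow]
  simp

/-- commutator of `ι u` with the perturbation -/
lemma lie_Q {ε' : F} (u : NL F ε) (v : NL F ε') : ιR p F u * Q p ε v - Q p ε v * ιR p F u =
    (u 0 * v 2) • P3 p ε + (u 1 * v 2) • P4 p ε + (u 0 * v 4 + u 1 * v 3) • gen p ε 8 := by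
  have h1 : ιR p F u = u 0 • gen p ε 0 + u 1 • gen p ε 1 + ιR p F (tail u) := by
    conv_lhs => rw [decomp u]
    rw [ιR_add, ιR_add, ιR_smul, ιR_smul]
    rfl
  have h2 : ιR p F (tail u) * Q p ε v = Q p ε v * ιR p F (tail u) :=
    (commute_TS p (tail_mem_TS p u) (Q_mem p v)).eq
  have h3 : gen p ε 0 * Q p ε v - Q p ε v * gen p ε 0 = v 2 • P3 p ε + v 4 • gen p ε 8 := by
    unfold Q
    have : gen p ε 0 * (v 2 • P2 p ε + v 3 • P3 p ε + v 4 • P4 p ε) -
      (v 2 • P2 p ε + v 3 • P3 p ε + v 4 • P4 p ε) * gen p ε 0 =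
      v 2 • (gen p ε 0 * P2 p ε - P2 p ε * gen p ε 0) +
      v 3 • (gen p ε 0 * P3 p ε - P3 p ε * gen p ε 0) +
      v 4 • (gen p ε 0 * P4 p ε - P4 p ε * gen p ε 0) := by
      simp only [mul_add, add_mul, mul_smul_comm, smul_mul_assoc, smul_sub]
      abel
    rw [this, lie0_P2, lie0_P3, lie0_P4]
    simp
  have h4 : gen p ε 1 * Q p ε v - Q p ε v * gen p ε 1 = v 2 • P4 p ε + v 3 • gen p ε 8 := by
    unfold Q
    have : gen p ε 1 * (v 2 • P2 p ε + v 3 • P3 p ε + v 4 • P4 p ε) -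
      (v 2 • P2 p ε + v 3 • P3 p ε + v 4 • P4 p ε) * gen p ε 1 =
      v 2 • (gen p ε 1 * P2 p ε - P2 p ε * gen p ε 1) +
      v 3 • (gen p ε 1 * P3 p ε - P3 p ε * gen p ε 1) +
      v 4 • (gen p ε 1 * P4 p ε - P4 p ε * gen p ε 1) := by
      simp only [mul_add, add_mul, mul_smul_comm, smul_mul_assoc, smul_sub]
      abel
    rw [this, lie1_P2, lie1_P3, lie1_P4]
    simp
  have h5 : ιR p F u * Q p ε v - Q p ε v * ιR p F u =
      u 0 • (gen p ε 0 * Q p ε v - Q p ε v * gen p ε 0) +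
      u 1 • (gen p ε 1 * Q p ε v - Q p ε v * gen p ε 1) +
      (ιR p F (tail u) * Q p ε v - Q p ε v * ιR p F (tail u)) := by
    rw [h1]
    simp only [mul_add, add_mul, mul_smul_comm, smul_mul_assoc, smul_sub]
    abel
  rw [h5, h3, h4, h2, sub_self]
  module

/-- change of parameter (identity on coordinates) -/
def cast' (ε ε' : F) (u : NL F ε') : NL F ε := u

@[simp] lemma cast_apply (ε ε' : F) (u : NL F ε') (i : Fin 9) : cast' ε ε' u i = u i := rfl

/-- the underlying function of the homomorphism. -/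
noncomputable def fmap (ε ε' : F) (u : NL F ε') : RestrictedEnvelopingAlgebra p F (NL F ε) :=
  ιR p F (cast' ε ε' u) + (ε' - ε) • Q p ε u

lemma fmap_add (ε ε' : F) (u v : NL F ε') : fmap p ε ε' (u + v) = fmap p ε ε' u + fmap p ε ε' v := by
  unfold fmap
  have h1 : cast' ε ε' (u + v) = cast' ε ε' u + cast' ε ε' v := rfl
  rw [h1, ιR_add, Q_add, smul_add]
  abel

lemma fmap_smul (ε ε' : F) (a : F) (u : NL F ε') : fmap p ε ε' (a • u) = a • fmap p ε ε' u := by
  unfold fmap
  have h1 : cast' ε ε' (a • u) = a • cast' ε ε' u := rfl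
  rw [h1, ιR_smul, Q_smul, smul_add, smul_comm]

lemma cast_lie (ε ε' : F) (u v : NL F ε') :
    cast' ε ε' ⁅u, v⁆ = ⁅cast' ε ε' u, cast' ε ε' v⁆ +
      ((ε' - ε) * (u 1 * v 3 + u 0 * v 4 - v 1 * u 3 - v 0 * u 4)) • e ε 8 := by
  apply nl_ext; intro i; fin_cases i <;> simp
  ring

lemma fmap_lie (ε ε' : F) (u v : NL F ε') :
    fmap p ε ε' ⁅u, v⁆ = ⁅fmap p ε ε' u, fmap p ε ε' v⁆ := by
  have hQ : Q p ε ⁅u, v⁆ = (u 0 * v 2 - v 0 * u 2) • P3 p ε + (u 1 * v 2 - v 1 * u 2) • P4 p ε := by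
    unfold Q
    rw [nl_lie2, nl_lie3, nl_lie4, zero_smul, zero_add]
  have h1 := lie_Q p (cast' ε ε' u) v
  have h2 := lie_Q p (cast' ε ε' v) u
  simp only [cast_apply] at h1 h2
  have hc : Q p ε u * Q p ε v - Q p ε v * Q p ε u = 0 :=
    sub_eq_zero.2 (commute_TS p (Q_mem p u) (Q_mem p v)).eq
  rw [LieRing.of_associative_ring_bracket]
  unfold fmap
  rw [cast_lie, ιR_add, ιR_smul, ιR_lie, hQ]
  have hexp : (ιR p F (cast' ε ε' u) + (ε' - ε) • Q p ε u) * (ιR p F (cast' ε ε' v) + (ε' - ε) • Q p ε v) -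
      (ιR p F (cast' ε ε' v) + (ε' - ε) • Q p ε v) * (ιR p F (cast' ε ε' u) + (ε' - ε) • Q p ε u) =
      (ιR p F (cast' ε ε' u) * ιR p F (cast' ε ε' v) - ιR p F (cast' ε ε' v) * ιR p F (cast' ε ε' u)) +
      (ε' - ε) • (ιR p F (cast' ε ε' u) * Q p ε v - Q p ε v * ιR p F (cast' ε ε' u)) -
      (ε' - ε) • (ιR p F (cast' ε ε' v) * Q p ε u - Q p ε u * ιR p F (cast' ε ε' v)) +
      (ε' - ε) • (ε' - ε) • (Q p ε u * Q p ε v - Q p ε v * Q p ε u) := by
    simp only [mul_add, add_mul, mul_smul_comm, smul_mul_assoc, smul_sub, smul_add]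
    abel
  rw [hexp, h1, h2, hc]
  have e8 : ιR p F (e ε 8) = gen p ε 8 := rfl
  rw [e8]
  module

/-- the Lie algebra homomorphism -/
noncomputable def fLie (ε ε' : F) : NL F ε' →ₗ⁅F⁆ RestrictedEnvelopingAlgebra p F (NL F ε) where
  toFun := fmap p ε ε'
  map_add' := fmap_add p ε ε'
  map_smul' := fmap_smul p ε ε'
  map_lie' := fun {u v} => fmap_lie p ε ε' u v

lemma fLie_apply (ε ε' : F) (u : NL F ε') : fLie p ε ε' u = ιR p F (cast' ε ε' u) + (ε' - ε) • Q p ε u :=
  rfl

lemma Q_e0 (ε ε' : F) : Q p ε (e ε' 0) = 0 := by simp [Q]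
lemma Q_e1 (ε ε' : F) : Q p ε (e ε' 1) = 0 := by simp [Q]

lemma fLie_pmap (ε ε' : F) (u : NL F ε') :
    fLie p ε ε' (RestrictedLieAlgebra.pmap p F u) = (fLie p ε ε' u) ^ p := by
  rw [decomp u]
  have h0 : fLie p ε ε' (RestrictedLieAlgebra.pmap p F (e ε' 0)) = (fLie p ε ε' (e ε' 0)) ^ p := by
    rw [pmap_eq, nlp_e0, map_zero, fLie_apply, Q_e0, smul_zero, add_zero]
    have h : cast' ε ε' (e ε' 0) = e ε 0 := rfl
    rw [h, ← ιR_pmap, pmap_eq, nlp_e0, ιR_zero']
  have h1 : fLie p ε ε' (RestrictedLieAlgebra.pmap p F (e ε' 1)) = (fLie p ε ε' (e ε' 1)) ^ p := by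
    rw [pmap_eq, nlp_e1, map_zero, fLie_apply, Q_e1, smul_zero, add_zero]
    have h : cast' ε ε' (e ε' 1) = e ε 1 := rfl
    rw [h, ← ιR_pmap, pmap_eq, nlp_e1, ιR_zero']
  have h2 : fLie p ε ε' (RestrictedLieAlgebra.pmap p F (tail u)) = (fLie p ε ε' (tail u)) ^ p := by
    rw [pmap_eq, nlp_tail, fLie_apply, fLie_apply]
    have e1 : cast' ε ε' (tail u) = tail (cast' ε ε' u) := rfl
    have e2 : cast' ε ε' (vv ((u 7) ^ p)) = vv ((u 7) ^ p) := rfl
    have e3 : Q p ε (vv ((u 7) ^ p) : NL F ε') = 0 := by simp [Q]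
    rw [e1, e2, e3, smul_zero, add_zero, add_pow_p p (F := F) (commute_TS p (tail_mem_TS p _)
      (Subalgebra.smul_mem _ (Q_mem p _) _)), _root_.smul_pow, Q_pow, smul_zero, add_zero, ← ιR_pmap,
      pmap_eq, nlp_tail]
    rfl
  exact pmap_hom_add _ (pmap_hom_add _ (pmap_hom_smul _ _ h0) (pmap_hom_smul _ _ h1)) h2

/-- the algebra homomorphism. -/
noncomputable def Ψ (ε ε' : F) : RestrictedEnvelopingAlgebra p F (NL F ε') →ₐ[F] RestrictedEnvelopingAlgebra p F (NL F ε) :=
  liftR (fLie p ε ε') (fLie_pmap p ε ε')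

lemma Ψ_ι (ε ε' : F) (u : NL F ε') :
    Ψ p ε ε' (ιR p F u) = ιR p F (cast' ε ε' u) + (ε' - ε) • Q p ε u := by
  unfold Ψ
  rw [liftR_ι, fLie_apply]

lemma Ψ_gen (ε ε' : F) {i : Fin 9} (hi : 5 ≤ i) : Ψ p ε ε' (gen p ε' i) = gen p ε i := by
  unfold gen
  rw [Ψ_ι]
  have : Q p ε (e ε' i) = 0 := by
    unfold Q
    have h2 : (2 : Fin 9) ≠ i := by rintro rfl; exact absurd hi (by decide)
    have h3 : (3 : Fin 9) ≠ i := by rintro rfl; exact absurd hi (by decide)
    have h4 : (4 : Fin 9) ≠ i := by rintro rfl; exact absurd hi (by decide)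
    simp [h2, h3, h4]
  rw [this, smul_zero, add_zero]
  rfl

lemma Ψ_Q (ε ε' : F) {ε'' : F} (u : NL F ε'') : Ψ p ε ε' (Q p ε' u) = Q p ε u := by
  unfold Q P2 P3 P4
  simp only [map_add, map_smul, map_mul, map_pow, Ψ_gen p ε ε' (show (5 : Fin 9) ≤ 5 by decide),
    Ψ_gen p ε ε' (show (5 : Fin 9) ≤ 6 by decide), Ψ_gen p ε ε' (show (5 : Fin 9) ≤ 7 by decide)]

lemma Ψ_comp (ε ε' : F) (x : RestrictedEnvelopingAlgebra p F (NL F ε)) : Ψ p ε ε' (Ψ p ε' ε x) = x := by
  have h : (Ψ p ε ε').comp (Ψ p ε' ε) = AlgHom.id F _ := by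
    apply algHom_ext
    intro u
    rw [AlgHom.comp_apply, Ψ_ι, map_add, map_smul, Ψ_Q, Ψ_ι, AlgHom.id_apply]
    have e1 : cast' ε ε' (cast' ε' ε u) = u := rfl
    have e2 : Q p ε (cast' ε' ε u) = Q p ε u := rfl
    rw [e1, e2]
    module
  exact DFunLike.congr_fun h x

/-- **The isomorphism** of restricted enveloping algebras. -/
noncomputable def Ψequiv (ε ε' : F) : RestrictedEnvelopingAlgebra p F (NL F ε') ≃ₐ[F] RestrictedEnvelopingAlgebra p F (NL F ε) :=
  AlgEquiv.ofAlgHom (Ψ p ε ε') (Ψ p ε' ε)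
    (AlgHom.ext fun x => Ψ_comp p ε ε' x) (AlgHom.ext fun x => Ψ_comp p ε' ε x)

end Hom

section Nilp

variable {F : Type*} [Field F] {ε : F}

/-- The elements with vanishing coordinates `0,1,2,5,6`. -/
def N1 (ε : F) : LieSubmodule F (NL F ε) (NL F ε) where
  carrier := {u | u 0 = 0 ∧ u 1 = 0 ∧ u 2 = 0 ∧ u 5 = 0 ∧ u 6 = 0}
  add_mem' := by
    rintro u v ⟨h0, h1, h2, h5, h6⟩ ⟨k0, k1, k2, k5, k6⟩
    simp [h0, h1, h2, h5, h6, k0, k1, k2, k5, k6]
  zero_mem' := by simp
  smul_mem' := by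
    rintro a u ⟨h0, h1, h2, h5, h6⟩
    simp [h0, h1, h2, h5, h6]
  lie_mem := by
    intro x u _
    simp

/-- The elements with vanishing coordinates `≠ 8`. -/
def N2 (ε : F) : LieSubmodule F (NL F ε) (NL F ε) where
  carrier := {u | ∀ i : Fin 9, i ≠ 8 → u i = 0}
  add_mem' := by
    intro u v hu hv i hi
    rw [nl_add, hu i hi, hv i hi, add_zero]
  zero_mem' := by intro i _; rfl
  smul_mem' := by
    intro a u hu i hi
    rw [nl_smul, hu i hi, mul_zero]
  lie_mem := by
    intro x u hu i hi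
    have h0 := hu 0 (by decide)
    have h1 := hu 1 (by decide)
    have h2 := hu 2 (by decide)
    have h5 := hu 5 (by decide)
    have h6 := hu 6 (by decide)
    fin_cases i <;> first | exact absurd rfl hi | simp [h0, h1, h2, h5, h6]

lemma lcs1_le : LieModule.lowerCentralSeries F (NL F ε) (NL F ε) 1 ≤ N1 ε := by
  rw [LieModule.lowerCentralSeries_succ, LieSubmodule.lie_le_iff]
  intro x _ m _
  change _ ∧ _
  simp

lemma lcs2_le : LieModule.lowerCentralSeries F (NL F ε) (NL F ε) 2 ≤ N2 ε := by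
  rw [LieModule.lowerCentralSeries_succ, LieSubmodule.lie_le_iff]
  intro x _ m hm i hi
  obtain ⟨h0, h1, h2, h5, h6⟩ := lcs1_le hm
  fin_cases i <;> first | exact absurd rfl hi | simp [h0, h1, h2, h5, h6]

lemma lcs3_eq : LieModule.lowerCentralSeries F (NL F ε) (NL F ε) 3 = ⊥ := by
  rw [eq_bot_iff, LieModule.lowerCentralSeries_succ, LieSubmodule.lie_le_iff]
  intro x _ m hm
  rw [LieSubmodule.mem_bot]
  have h := lcs2_le hm
  apply nl_ext
  intro i
  have h0 := h 0 (by decide)
  have h1 := h 1 (by decide)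
  have h2 := h 2 (by decide)
  have h3 := h 3 (by decide)
  have h4 := h 4 (by decide)
  have h5 := h 5 (by decide)
  have h6 := h 6 (by decide)
  fin_cases i <;> simp [h0, h1, h2, h3, h4, h5, h6]

lemma lcs2_eq_of_zero : LieModule.lowerCentralSeries F (NL F (0 : F)) (NL F (0 : F)) 2 = ⊥ := by
  rw [eq_bot_iff, LieModule.lowerCentralSeries_succ, LieSubmodule.lie_le_iff]
  intro x _ m hm
  rw [LieSubmodule.mem_bot]
  obtain ⟨h0, h1, h2, h5, h6⟩ := lcs1_le hm
  apply nl_ext
  intro i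
  fin_cases i <;> simp [h0, h1, h2, h5, h6]

lemma lcs1_ne : LieModule.lowerCentralSeries F (NL F ε) (NL F ε) 1 ≠ ⊥ := by
  intro h
  have h1 : ⁅e ε 0, e ε 2⁆ ∈ LieModule.lowerCentralSeries F (NL F ε) (NL F ε) 1 := by
    rw [LieModule.lowerCentralSeries_succ]
    exact LieSubmodule.lie_mem_lie (LieSubmodule.mem_top _) (LieSubmodule.mem_top _)
  rw [h, LieSubmodule.mem_bot] at h1
  have h2 : (⁅e ε 0, e ε 2⁆ : NL F ε) 3 = 0 := by rw [h1]; rfl
  simp at h2

lemma lcs2_ne (hε : ε ≠ 0) : LieModule.lowerCentralSeries F (NL F ε) (NL F ε) 2 ≠ ⊥ := by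
  intro h
  have h1 : ⁅e ε 1, ⁅e ε 0, e ε 2⁆⁆ ∈ LieModule.lowerCentralSeries F (NL F ε) (NL F ε) 2 := by
    rw [LieModule.lowerCentralSeries_succ]
    refine LieSubmodule.lie_mem_lie (LieSubmodule.mem_top _) ?_
    rw [LieModule.lowerCentralSeries_succ]
    exact LieSubmodule.lie_mem_lie (LieSubmodule.mem_top _) (LieSubmodule.mem_top _)
  rw [h, LieSubmodule.mem_bot] at h1
  have h2 : (⁅e ε 1, ⁅e ε 0, e ε 2⁆⁆ : NL F ε) 8 = 0 := by rw [h1]; rfl
  simp at h2
  exact hε h2

lemma nilp : LieRing.IsNilpotent (NL F ε) :=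
  (LieModule.isNilpotent_iff F (NL F ε) (NL F ε)).2 ⟨3, lcs3_eq⟩

lemma class_zero : LieModule.nilpotencyLength (NL F (0 : F)) (NL F (0 : F)) = 2 := by
  rw [LieModule.nilpotencyLength_eq_succ_iff F]
  exact ⟨lcs2_eq_of_zero, lcs1_ne⟩

lemma class_ne_zero (hε : ε ≠ 0) : LieModule.nilpotencyLength (NL F ε) (NL F ε) = 3 := by
  rw [LieModule.nilpotencyLength_eq_succ_iff F]
  exact ⟨lcs3_eq, lcs2_ne hε⟩

variable (p : ℕ) [hp : Fact p.Prime] [CharP F p]

lemma tail_nlp (u : NL F ε) : tail (nlp p u) = nlp p u := by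
  have hp2 := p_ge_two p
  have h1 : p - 1 = (p - 2) + 1 := by omega
  have h2 : nlp p u = vv ((u 7) ^ p) + ⁅yz u, ((LieAlgebra.ad F (NL F ε) (yz u)) ^ (p - 2)) u⁆ := by
    unfold nlp
    rw [h1, pow_succ']
    rfl
  rw [h2]
  apply nl_ext; intro i
  fin_cases i <;> simp

lemma nlp_iter (u : NL F ε) : (nlp p)^[3] u = 0 := by
  change nlp p (nlp p (nlp p u)) = 0
  rw [← tail_nlp p u, nlp_tail, ← tail_nlp p u]
  have h : (vv ((tail (nlp p u)) 7 ^ p) : NL F ε) = tail (vv ((tail (nlp p u)) 7 ^ p)) := by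
    apply nl_ext; intro i; fin_cases i <;> simp
  rw [h, nlp_tail, vv7, zero_pow hp.out.ne_zero, vv_zero]

end Nilp

universe u

/-- **Main theorem.** For every prime `p` and every field `F` of characteristic `p` there are
finite-dimensional (in fact `9`-dimensional) `p`-nilpotent restricted Lie algebras `L` and `H` over
`F` with `u(L) ≅ u(H)` as associative `F`-algebras, such that `L` is nilpotent of class `2` and `H` is
nilpotent of class `3`. (Mathlib's `LieModule.nilpotencyLength L L` is the least `c` with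
`γ_(c+1)(L) = 0`, i.e. the nilpotence class.) -/
theorem result (p : ℕ) [Fact p.Prime] (F : Type u) [Field F] [CharP F p] :
    ∃ (L H : Type u) (_ : LieRing L) (_ : LieAlgebra F L) (_ : RestrictedLieAlgebra p F L)
      (_ : LieRing H) (_ : LieAlgebra F H) (_ : RestrictedLieAlgebra p F H),
      (Module.Finite F L ∧ Module.finrank F L = 9 ∧ IsPNilpotent p F L) ∧
      (Module.Finite F H ∧ Module.finrank F H = 9 ∧ IsPNilpotent p F H) ∧
      Nonempty (RestrictedEnvelopingAlgebra p F L ≃ₐ[F] RestrictedEnvelopingAlgebra p F H) ∧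
      (LieRing.IsNilpotent L ∧ LieModule.nilpotencyLength L L = 2) ∧
      (LieRing.IsNilpotent H ∧ LieModule.nilpotencyLength H H = 3) := by
  have hfin : ∀ ε : F, Module.Finite F (NL F ε) := fun ε =>
    inferInstanceAs (Module.Finite F (Fin 9 → F))
  have hrank : ∀ ε : F, Module.finrank F (NL F ε) = 9 := fun ε => Module.finrank_fin_fun F
  exact ⟨NL F (0 : F), NL F (1 : F), inferInstance, inferInstance, instRestrictedNL p, inferInstance,
    inferInstance, instRestrictedNL p, ⟨hfin 0, hrank 0, fun x => ⟨3, by norm_num, nlp_iter p x⟩⟩,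
    ⟨hfin 1, hrank 1, fun x => ⟨3, by norm_num, nlp_iter p x⟩⟩, ⟨Ψequiv p 1 0⟩,
    ⟨nilp, class_zero⟩, ⟨nilp, class_ne_zero one_ne_zero⟩⟩

end Pool.Agent.Results.MP_26769e_al.ClassNotDetermined
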